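import Pool.Agent.Lib.MP_678664_lc_h67.Defs

/-!
Semidefinite programming formulations of the gap clique problem: tell graphs with a `k`-clique
from graphs without a `u`-clique.
-/

set_option autoImplicit false

namespace Pool.Agent.Lib.MP_678664_lc_SDP

open Pool.Agent.Lib.MP_678664_lc_h67 (edgesIn)

/-- A semidefinite programming formulation of size `r` of the problem to tell graphs on `Fin n`
with a `k`-clique from graphs on `Fin n` without a `u`-clique, with gap `ε`.

The feasible region is the set of the `y : Fin d → ℝ` for which the `r × r` matrix
`A₀ + ∑ i, y i • A i` is positive semidefinite (in particular symmetric) and the `m` equations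
`c j ⬝ᵥ y = e j` hold; it does not depend on the input graph, and the numbers `d` of variables
and `m` of equations are not restricted.  Each set `S` of `k` vertices has a feasible point
`point S`.  The input graph `G` enters only through the affine objective function
`y ↦ obj G ⬝ᵥ y + obj0 G`, whose value at `point S` is the number of edges of `G` inside `S`.
If `G` has no `u`-clique, the objective function is at most `k.choose 2 - ε` on the whole
feasible region (it is at least `k.choose 2` somewhere if `G` has a `k`-clique). -/
structure SDPFormulation (n k u : ℕ) (ε : ℝ) (r : ℕ) where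
  /-- number of variables -/
  d : ℕ
  /-- number of equations -/
  m : ℕ
  /-- constant coefficient of the matrix inequality -/
  A₀ : Matrix (Fin r) (Fin r) ℝ
  /-- coefficients of the matrix inequality -/
  A : Fin d → Matrix (Fin r) (Fin r) ℝ
  /-- left sides of the equations -/
  c : Fin m → Fin d → ℝ
  /-- right sides of the equations -/
  e : Fin m → ℝ
  /-- the point of a vertex set -/
  point : Finset (Fin n) → Fin d → ℝ
  /-- linear part of the objective function of a graph -/
  obj : SimpleGraph (Fin n) → Fin d → ℝ
  /-- constant term of the objective function of a graph -/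
  obj0 : SimpleGraph (Fin n) → ℝ
  /-- the points of the `k`-sets satisfy the matrix inequality -/
  point_psd : ∀ S, S.card = k → (A₀ + ∑ i, point S i • A i).PosSemidef
  /-- the points of the `k`-sets satisfy the equations -/
  point_eq : ∀ S, S.card = k → ∀ j, c j ⬝ᵥ point S = e j
  /-- the objective function counts the edges inside a `k`-set -/
  obj_point : ∀ G S, S.card = k → obj G ⬝ᵥ point S + obj0 G = edgesIn G S
  /-- the value is at most `k.choose 2 - ε` if there is no `u`-clique -/
  sound : ∀ G, G.CliqueFree u → ∀ y : Fin d → ℝ, (A₀ + ∑ i, y i • A i).PosSemidef →
    (∀ j, c j ⬝ᵥ y = e j) → obj G ⬝ᵥ y + obj0 G ≤ k.choose 2 - ε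

end Pool.Agent.Lib.MP_678664_lc_SDP
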