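import Mathlib

/-!
Facial reduction and strong duality for semidefinite programs with finitely many distinguished
feasible points: an affine function bounded by `β` on the feasible region of a semidefinite
program is, at given feasible points `x i`, of the form `β - trace (Y * mat (x i)) - s` with
`Y` positive semidefinite and `s ≥ 0`.

Proof.  Let `B₀` be the sum of the matrices `mat (x i)`.  Consider the linear space of pairs
`(y, l)` such that the homogenised matrix `M = l A₀ + ∑ y i A i` is symmetric, kills the kernel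
of `B₀`, and such that the homogenised equations hold.  The functional `l β - f y - l f₀` is
nonnegative at the pairs with `l ≥ 0` and `M` nonnegative on the range of `B₀`.  As `B₀` is an
order unit for the cone of the matrices nonnegative on its range, the Riesz extension theorem
gives the functional `(Z, t) ↦ trace (Y * Z) + s t`.
-/

set_option autoImplicit false

namespace Pool.Agent.Lib.MP_678664_lc_SDP

open Matrix

/-- the cone of the matrices which are nonnegative on the range of `B₀` -/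
def rangeCone {r : ℕ} (B₀ : Matrix (Fin r) (Fin r) ℝ) :
    PointedCone ℝ (Matrix (Fin r) (Fin r) ℝ) where
  carrier := {Z | ∀ w : Fin r → ℝ, 0 ≤ (B₀ *ᵥ w) ⬝ᵥ (Z *ᵥ (B₀ *ᵥ w))}
  add_mem' := by
    intro a b ha hb w
    simp only [Matrix.add_mulVec, dotProduct_add]
    exact add_nonneg (ha w) (hb w)
  zero_mem' := by intro w; simp
  smul_mem' := by
    intro c a ha w
    have := ha w
    have hc : (0:ℝ) ≤ (c : ℝ) := c.2
    have h2 : (c • a) *ᵥ (B₀ *ᵥ w) = (c:ℝ) • (a *ᵥ (B₀ *ᵥ w)) := by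
      rw [← Matrix.smul_mulVec]
      rfl
    rw [h2, dotProduct_smul]
    exact mul_nonneg hc this

theorem mem_rangeCone {r : ℕ} (B₀ Z : Matrix (Fin r) (Fin r) ℝ) :
    Z ∈ rangeCone B₀ ↔ ∀ w : Fin r → ℝ, 0 ≤ (B₀ *ᵥ w) ⬝ᵥ (Z *ᵥ (B₀ *ᵥ w)) := Iff.rfl

/-- `B₀` is an order unit of the cone. -/
theorem rangeCone_unit {r : ℕ} (B₀ : Matrix (Fin r) (Fin r) ℝ) (hB : B₀.PosSemidef)
    (Z : Matrix (Fin r) (Fin r) ℝ) : ∃ t : ℝ, 0 ≤ t ∧ t • B₀ + Z ∈ rangeCone B₀ := by
  classical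
  set R : Submodule ℝ (Fin r → ℝ) := LinearMap.range B₀.mulVecLin with hR
  set K : Set (Fin r → ℝ) := Metric.sphere 0 1 ∩ (R : Set (Fin r → ℝ)) with hK
  have hKc : IsCompact K := (isCompact_sphere _ _).inter_right R.closed_of_finiteDimensional
  have hBs : B₀ᵀ = B₀ := by
    have := hB.isHermitian
    rwa [Matrix.IsHermitian, Matrix.conjTranspose_eq_transpose_of_trivial] at this
  -- positivity on the sphere
  have hpos : ∀ v ∈ K, 0 < v ⬝ᵥ (B₀ *ᵥ v) := by
    rintro v ⟨hv1, w, hw⟩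
    have hw' : B₀ *ᵥ w = v := hw
    have h0 : 0 ≤ v ⬝ᵥ (B₀ *ᵥ v) := by
      have := hB.dotProduct_mulVec_nonneg v
      simpa using this
    rcases h0.lt_or_eq with h | h
    · exact h
    · exfalso
      have h1 : B₀ *ᵥ v = 0 := by
        rw [← hB.dotProduct_mulVec_zero_iff v]
        simpa using h.symm
      have h2 : v ⬝ᵥ v = 0 := by
        have : v ⬝ᵥ v = w ⬝ᵥ (B₀ *ᵥ v) := by
          conv_lhs => rw [← hw']
          rw [← hw', Matrix.dotProduct_mulVec w B₀, ← Matrix.mulVec_transpose, hBs]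
        rw [this, h1, dotProduct_zero]
      have h3 : v = 0 := by
        simpa using (dotProduct_self_eq_zero (v := v)).1 h2
      rw [h3] at hv1
      simp at hv1
  have hcont : ∀ M : Matrix (Fin r) (Fin r) ℝ, Continuous fun v : Fin r → ℝ => v ⬝ᵥ (M *ᵥ v) := by
    intro M
    refine Continuous.dotProduct continuous_id ?_
    exact (Matrix.mulVecLin M).continuous_of_finiteDimensional
  by_cases hne : K.Nonempty
  · obtain ⟨v₁, hv₁, hmin⟩ := hKc.exists_isMinOn hne (hcont B₀).continuousOn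
    obtain ⟨v₂, hv₂, hmin2⟩ := hKc.exists_isMinOn hne (hcont Z).continuousOn
    set δ := v₁ ⬝ᵥ (B₀ *ᵥ v₁) with hδ
    have hδ0 : 0 < δ := hpos v₁ hv₁
    set C := |v₂ ⬝ᵥ (Z *ᵥ v₂)| with hC
    refine ⟨C / δ, by positivity, ?_⟩
    intro w
    set v := B₀ *ᵥ w with hv
    by_cases hv0 : v = 0
    · simp [hv0]
    have hn : 0 < ‖v‖ := norm_pos_iff.2 hv0
    have hin : ‖v‖⁻¹ • v ∈ K := by
      refine ⟨?_, R.smul_mem _ ⟨w, rfl⟩⟩
      simp [norm_smul, hn.ne']
    have h1 : δ ≤ (‖v‖⁻¹ • v) ⬝ᵥ (B₀ *ᵥ (‖v‖⁻¹ • v)) := hmin hin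
    have h2 : -C ≤ (‖v‖⁻¹ • v) ⬝ᵥ (Z *ᵥ (‖v‖⁻¹ • v)) :=
      (neg_abs_le _).trans (hmin2 hin)
    have h3 : ∀ M : Matrix (Fin r) (Fin r) ℝ, v ⬝ᵥ (M *ᵥ v)
        = ‖v‖ ^ 2 * ((‖v‖⁻¹ • v) ⬝ᵥ (M *ᵥ (‖v‖⁻¹ • v))) := by
      intro M
      rw [Matrix.mulVec_smul, smul_dotProduct, dotProduct_smul, smul_eq_mul, smul_eq_mul]
      field_simp
    rw [Matrix.add_mulVec, dotProduct_add, Matrix.smul_mulVec, dotProduct_smul, smul_eq_mul,
      h3 B₀, h3 Z]
    have h4 : 0 ≤ C / δ * ((‖v‖⁻¹ • v) ⬝ᵥ (B₀ *ᵥ (‖v‖⁻¹ • v)))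
        + (‖v‖⁻¹ • v) ⬝ᵥ (Z *ᵥ (‖v‖⁻¹ • v)) := by
      have : C ≤ C / δ * ((‖v‖⁻¹ • v) ⬝ᵥ (B₀ *ᵥ (‖v‖⁻¹ • v))) := by
        calc C = C / δ * δ := by field_simp
          _ ≤ _ := mul_le_mul_of_nonneg_left h1 (by positivity)
      linarith
    nlinarith [mul_nonneg (sq_nonneg ‖v‖) h4]
  · refine ⟨0, le_rfl, ?_⟩
    intro w
    have hv0 : B₀ *ᵥ w = 0 := by
      by_contra hv
      apply hne
      refine ⟨‖B₀ *ᵥ w‖⁻¹ • (B₀ *ᵥ w), ?_, R.smul_mem _ ⟨w, rfl⟩⟩
      have : 0 < ‖B₀ *ᵥ w‖ := norm_pos_iff.2 hv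
      simp [norm_smul, this.ne']
    simp [hv0]


section

variable {r d m : ℕ} (A₀ : Matrix (Fin r) (Fin r) ℝ) (A : Fin d → Matrix (Fin r) (Fin r) ℝ)

/-- the homogenised matrix -/
def hmat : ((Fin d → ℝ) × ℝ) →ₗ[ℝ] Matrix (Fin r) (Fin r) ℝ where
  toFun h := h.2 • A₀ + ∑ j, h.1 j • A j
  map_add' a b := by
    simp only [Prod.snd_add, Prod.fst_add, Pi.add_apply, add_smul, Finset.sum_add_distrib]
    abel
  map_smul' t a := by
    simp only [Prod.smul_snd, Prod.smul_fst, Pi.smul_apply, smul_eq_mul, RingHom.id_apply,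
      smul_add, Finset.smul_sum, mul_smul]

theorem hmat_apply (h : (Fin d → ℝ) × ℝ) :
    hmat A₀ A h = h.2 • A₀ + ∑ j, h.1 j • A j := rfl

/-- the homogenised affine subspace -/
def hsub (B₀ : Matrix (Fin r) (Fin r) ℝ) (c : Fin m → Fin d → ℝ) (e : Fin m → ℝ) :
    Submodule ℝ ((Fin d → ℝ) × ℝ) where
  carrier := {h | (hmat A₀ A h)ᵀ = hmat A₀ A h ∧
    (∀ v, B₀ *ᵥ v = 0 → hmat A₀ A h *ᵥ v = 0) ∧ ∀ j, c j ⬝ᵥ h.1 = h.2 * e j}
  add_mem' := by
    rintro a b ⟨ha1, ha2, ha3⟩ ⟨hb1, hb2, hb3⟩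
    refine ⟨?_, ?_, ?_⟩
    · rw [map_add, Matrix.transpose_add, ha1, hb1]
    · intro v hv
      rw [map_add, Matrix.add_mulVec, ha2 v hv, hb2 v hv, add_zero]
    · intro j
      rw [Prod.fst_add, dotProduct_add, ha3, hb3, Prod.snd_add, add_mul]
  zero_mem' := by
    refine ⟨by simp, by simp, by simp⟩
  smul_mem' := by
    rintro t a ⟨ha1, ha2, ha3⟩
    refine ⟨?_, ?_, ?_⟩
    · rw [map_smul, Matrix.transpose_smul, ha1]
    · intro v hv
      rw [map_smul, Matrix.smul_mulVec, ha2 v hv, smul_zero]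
    · intro j
      rw [Prod.smul_fst, dotProduct_smul, ha3, Prod.smul_snd]
      simp only [smul_eq_mul]
      ring

theorem mem_hsub (B₀ : Matrix (Fin r) (Fin r) ℝ) (c : Fin m → Fin d → ℝ) (e : Fin m → ℝ)
    (h : (Fin d → ℝ) × ℝ) : h ∈ hsub A₀ A B₀ c e ↔ (hmat A₀ A h)ᵀ = hmat A₀ A h ∧
    (∀ v, B₀ *ᵥ v = 0 → hmat A₀ A h *ᵥ v = 0) ∧ ∀ j, c j ⬝ᵥ h.1 = h.2 * e j := Iff.rfl

/-- the cone for the extension theorem -/
def bigCone (B₀ : Matrix (Fin r) (Fin r) ℝ) (c : Fin m → Fin d → ℝ) (e : Fin m → ℝ) :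
    PointedCone ℝ (hsub A₀ A B₀ c e × (Matrix (Fin r) (Fin r) ℝ × ℝ)) where
  carrier := {p | hmat A₀ A p.1 + p.2.1 ∈ rangeCone B₀ ∧ 0 ≤ (p.1 : (Fin d → ℝ) × ℝ).2 + p.2.2}
  add_mem' := by
    rintro a b ⟨ha1, ha2⟩ ⟨hb1, hb2⟩
    refine ⟨?_, ?_⟩
    · have := (rangeCone B₀).add_mem ha1 hb1
      convert this using 1
      simp only [Prod.fst_add, Prod.snd_add, Submodule.coe_add, map_add]
      abel
    · simp only [Prod.fst_add, Prod.snd_add, Submodule.coe_add]
      linarith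
  zero_mem' := by
    refine ⟨?_, ?_⟩
    · simp only [Prod.fst_zero, Prod.snd_zero, Submodule.coe_zero, map_zero, add_zero]
      exact (rangeCone B₀).zero_mem
    · simp
  smul_mem' := by
    rintro t a ⟨ha1, ha2⟩
    refine ⟨?_, ?_⟩
    · have := (rangeCone B₀).smul_mem t.2 ha1
      convert this using 1
      simp only [Prod.smul_fst, Prod.smul_snd, smul_add]
      congr 1
      exact (hmat A₀ A).map_smul (t : ℝ) _
    · have ht : (0:ℝ) ≤ (t : ℝ) := t.2
      have : (((t • a).1 : (Fin d → ℝ) × ℝ).2 + (t • a).2.2)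
          = (t : ℝ) * ((a.1 : (Fin d → ℝ) × ℝ).2 + a.2.2) := by
        rw [mul_add]
        rfl
      rw [this]
      exact mul_nonneg ht ha2

theorem mem_bigCone (B₀ : Matrix (Fin r) (Fin r) ℝ) (c : Fin m → Fin d → ℝ) (e : Fin m → ℝ)
    (p : hsub A₀ A B₀ c e × (Matrix (Fin r) (Fin r) ℝ × ℝ)) :
    p ∈ bigCone A₀ A B₀ c e ↔ hmat A₀ A p.1 + p.2.1 ∈ rangeCone B₀ ∧
      0 ≤ (p.1 : (Fin d → ℝ) × ℝ).2 + p.2.2 := Iff.rfl

/-- A symmetric matrix that kills the kernel of the symmetric matrix `B₀` and is nonnegative on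
its range is positive semidefinite. -/
theorem posSemidef_of_range (B₀ M : Matrix (Fin r) (Fin r) ℝ) (hB : B₀.IsHermitian)
    (hM : Mᵀ = M) (hker : ∀ v, B₀ *ᵥ v = 0 → M *ᵥ v = 0) (hr : M ∈ rangeCone B₀) :
    M.PosSemidef := by
  have hBs : B₀ᵀ = B₀ := by
    rwa [Matrix.IsHermitian, Matrix.conjTranspose_eq_transpose_of_trivial] at hB
  have hdisj : Disjoint (LinearMap.range B₀.mulVecLin) (LinearMap.ker B₀.mulVecLin) := by
    rw [Submodule.disjoint_def]
    rintro v ⟨w, hw⟩ hv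
    have hw' : B₀ *ᵥ w = v := hw
    have hv' : B₀ *ᵥ v = 0 := hv
    have h2 : v ⬝ᵥ v = 0 := by
      have : v ⬝ᵥ v = w ⬝ᵥ (B₀ *ᵥ v) := by
        conv_lhs => rw [← hw']
        rw [← hw', Matrix.dotProduct_mulVec w B₀, ← Matrix.mulVec_transpose, hBs]
      rw [this, hv', dotProduct_zero]
    exact (dotProduct_self_eq_zero (v := v)).1 h2
  have htop := Submodule.eq_top_of_disjoint _ _
    (LinearMap.finrank_range_add_finrank_ker B₀.mulVecLin).ge hdisj
  refine Matrix.PosSemidef.of_dotProduct_mulVec_nonneg ?_ ?_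
  · rwa [Matrix.IsHermitian, Matrix.conjTranspose_eq_transpose_of_trivial]
  · intro v
    obtain ⟨b, ⟨w, hw⟩, a, ha, hab⟩ := Submodule.mem_sup.1 (htop ▸ Submodule.mem_top : v ∈ _)
    have hw' : B₀ *ᵥ w = b := hw
    have ha' : M *ᵥ a = 0 := hker a ha
    have h1 : M *ᵥ v = M *ᵥ b := by rw [← hab, Matrix.mulVec_add, ha', add_zero]
    have h2 : v ⬝ᵥ (M *ᵥ b) = b ⬝ᵥ (M *ᵥ b) := by
      rw [← hab, add_dotProduct, Matrix.dotProduct_mulVec a M, ← Matrix.mulVec_transpose, hM, ha',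
        zero_dotProduct, add_zero]
    have h3 := hr w
    rw [hw'] at h3
    simpa [h1, h2] using h3

/-- Strong duality at finitely many feasible points. -/
theorem psd_factor (c : Fin m → Fin d → ℝ) (e : Fin m → ℝ) {ι : Type*} (I : Finset ι)
    (hI : I.Nonempty) (x : ι → Fin d → ℝ)
    (hx : ∀ i ∈ I, (A₀ + ∑ j, x i j • A j).PosSemidef)
    (hxe : ∀ i ∈ I, ∀ j, c j ⬝ᵥ x i = e j) (f : Fin d → ℝ) (f₀ β : ℝ)
    (hf : ∀ y : Fin d → ℝ, (A₀ + ∑ j, y j • A j).PosSemidef → (∀ j, c j ⬝ᵥ y = e j) →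
      f ⬝ᵥ y + f₀ ≤ β) :
    ∃ (Y : Matrix (Fin r) (Fin r) ℝ) (s : ℝ), Y.PosSemidef ∧ 0 ≤ s ∧
      ∀ i ∈ I, β - (f ⬝ᵥ x i + f₀) = (Y * (A₀ + ∑ j, x i j • A j)).trace + s := by
  classical
  set B : ι → Matrix (Fin r) (Fin r) ℝ := fun i => A₀ + ∑ j, x i j • A j with hB
  set B₀ : Matrix (Fin r) (Fin r) ℝ := ∑ i ∈ I, B i with hB₀
  have hsym : ∀ i ∈ I, (B i)ᵀ = B i := fun i hi => by
    have := (hx i hi).isHermitian
    rwa [Matrix.IsHermitian, Matrix.conjTranspose_eq_transpose_of_trivial] at this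
  have hB₀psd : B₀.PosSemidef := by
    rw [hB₀]
    exact Matrix.posSemidef_sum _ fun i hi => hx i hi
  have hBs : B₀ᵀ = B₀ := by
    have := hB₀psd.isHermitian
    rwa [Matrix.IsHermitian, Matrix.conjTranspose_eq_transpose_of_trivial] at this
  have hkill : ∀ i ∈ I, ∀ v, B₀ *ᵥ v = 0 → B i *ᵥ v = 0 := by
    intro i hi v hv
    rw [← (hx i hi).dotProduct_mulVec_zero_iff v]
    have h1 : ∑ i ∈ I, star v ⬝ᵥ (B i *ᵥ v) = 0 := by
      have : star v ⬝ᵥ (B₀ *ᵥ v) = ∑ i ∈ I, star v ⬝ᵥ (B i *ᵥ v) := by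
        rw [hB₀, Matrix.sum_mulVec, dotProduct_sum]
      rw [← this, hv, dotProduct_zero]
    exact (Finset.sum_eq_zero_iff_of_nonneg
      (fun i hi => (hx i hi).dotProduct_mulVec_nonneg v)).1 h1 i hi
  have hmem1 : ∀ i ∈ I, ((x i, 1) : (Fin d → ℝ) × ℝ) ∈ hsub A₀ A B₀ c e := by
    intro i hi
    have h0 : hmat A₀ A (x i, 1) = B i := by simp [hmat_apply, hB]
    refine ⟨?_, ?_, ?_⟩
    · rw [h0]; exact hsym i hi
    · intro v hv
      rw [h0]; exact hkill i hi v hv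
    · intro j
      simpa using hxe i hi j
  -- the functional
  set F : ((Fin d → ℝ) × ℝ) →ₗ[ℝ] ℝ :=
    { toFun := fun h => β * h.2 - (f ⬝ᵥ h.1 + f₀ * h.2)
      map_add' := by
        intro a b
        simp only [Prod.snd_add, Prod.fst_add, dotProduct_add]
        ring
      map_smul' := by
        intro t a
        simp only [Prod.smul_snd, Prod.smul_fst, dotProduct_smul, smul_eq_mul, RingHom.id_apply]
        ring } with hF
  have hFapp : ∀ h, F h = β * h.2 - (f ⬝ᵥ h.1 + f₀ * h.2) := fun h => rfl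
  obtain ⟨i₀, hi₀⟩ := hI
  -- nonnegativity for the homogenised problem
  have hpos1 : ∀ y l, (y, l) ∈ hsub A₀ A B₀ c e → hmat A₀ A (y, l) ∈ rangeCone B₀ → 0 < l →
      0 ≤ F (y, l) := by
    intro y l hy hc hl
    have hyl := (hsub A₀ A B₀ c e).smul_mem l⁻¹ hy
    have hps : (hmat A₀ A (y, l)).PosSemidef :=
      posSemidef_of_range B₀ _ hB₀psd.isHermitian hy.1 hy.2.1 hc
    have h1 : A₀ + ∑ j, (l⁻¹ • y) j • A j = l⁻¹ • hmat A₀ A (y, l) := by
      rw [hmat_apply, smul_add, smul_smul, inv_mul_cancel₀ hl.ne', one_smul, Finset.smul_sum]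
      simp only [Pi.smul_apply, smul_eq_mul, mul_smul]
    have h2 := hf (l⁻¹ • y) (by
      rw [h1]
      exact hps.smul (inv_nonneg.2 hl.le)) (by
      intro j
      rw [dotProduct_smul, hy.2.2 j, smul_eq_mul, ← mul_assoc, inv_mul_cancel₀ hl.ne', one_mul])
    rw [dotProduct_smul, smul_eq_mul] at h2
    rw [hFapp]
    have h3 := mul_le_mul_of_nonneg_left h2 hl.le
    have h4 : l * (l⁻¹ * f ⬝ᵥ y + f₀) = f ⬝ᵥ y + f₀ * l := by
      field_simp
    rw [h4] at h3
    simp only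
    linarith
  have hpos : ∀ h : (Fin d → ℝ) × ℝ, h ∈ hsub A₀ A B₀ c e → hmat A₀ A h ∈ rangeCone B₀ →
      0 ≤ h.2 → 0 ≤ F h := by
    rintro ⟨y, l⟩ hy hc hl
    rcases hl.lt_or_eq with hl | hl
    · exact hpos1 y l hy hc hl
    · by_contra hneg
      rw [not_le] at hneg
      -- perturb by a feasible point
      have hkey : ∀ ε : ℝ, 0 < ε → 0 ≤ F (y, l) + ε * F (x i₀, 1) := by
        intro ε hε
        have hmm := (hsub A₀ A B₀ c e).add_mem hy
          ((hsub A₀ A B₀ c e).smul_mem ε (hmem1 i₀ hi₀))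
        have h0 : hmat A₀ A (x i₀, 1) = B i₀ := by simp [hmat_apply, hB]
        have hcc : hmat A₀ A ((y, l) + ε • (x i₀, 1)) ∈ rangeCone B₀ := by
          rw [map_add, map_smul, h0]
          refine (rangeCone B₀).add_mem hc ((rangeCone B₀).smul_mem hε.le ?_)
          intro w
          have := (hx i₀ hi₀).dotProduct_mulVec_nonneg (B₀ *ᵥ w)
          simpa using this
        have := hpos1 _ _ hmm hcc (by
          simp only [Prod.smul_snd, smul_eq_mul, mul_one]
          have : (0:ℝ) ≤ l := hl.le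
          linarith)
        have h5 : F ((y, l) + ε • (x i₀, 1)) = F (y, l) + ε * F (x i₀, 1) := by
          rw [map_add, map_smul, smul_eq_mul]
        rw [← h5]
        exact this
      have h6 := hkey (-F (y, l) / (2 * (|F (x i₀, 1)| + 1)))
        (div_pos (neg_pos.2 hneg) (by positivity))
      have h7 : F (x i₀, 1) ≤ |F (x i₀, 1)| := le_abs_self _
      have h8 : -F (y, l) / (2 * (|F (x i₀, 1)| + 1)) * F (x i₀, 1) ≤ -F (y, l) / 2 := by
        have hp : 0 < |F (x i₀, 1)| + 1 := by positivity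
        rw [div_mul_eq_mul_div, div_le_div_iff₀ (by positivity) (by norm_num)]
        nlinarith [neg_pos.2 hneg]
      linarith
  -- the partial functional on the product space
  set E := hsub A₀ A B₀ c e × (Matrix (Fin r) (Fin r) ℝ × ℝ) with hE
  let π : E →ₗ[ℝ] (Matrix (Fin r) (Fin r) ℝ × ℝ) := LinearMap.snd ℝ _ _
  let G : E →ₗ[ℝ] ℝ := (F.comp (Submodule.subtype _)).comp (LinearMap.fst ℝ _ _)
  let φ : E →ₗ.[ℝ] ℝ := ⟨LinearMap.ker π, G.comp (Submodule.subtype _)⟩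
  obtain ⟨g, hg1, hg2⟩ := riesz_extension (bigCone A₀ A B₀ c e) φ (by
    rintro ⟨⟨h, Z, t⟩, hz⟩ hc
    have hz' : ((Z, t) : Matrix (Fin r) (Fin r) ℝ × ℝ) = 0 := hz
    obtain ⟨rfl, rfl⟩ := Prod.mk.inj hz'
    have hc' := (mem_bigCone A₀ A B₀ c e _).1 hc
    refine hpos h h.2 ?_ ?_
    · simpa using hc'.1
    · simpa using hc'.2) (by
    rintro ⟨h, Z, t⟩
    obtain ⟨τ, hτ0, hτ⟩ := rangeCone_unit B₀ hB₀psd Z
    set p : hsub A₀ A B₀ c e := -h + (τ + |t|) • (∑ i ∈ I.attach, ⟨(x i, 1), hmem1 i i.2⟩) with hp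
    refine ⟨⟨(p, 0, 0), rfl⟩, ?_⟩
    have hcoe : ((p : (Fin d → ℝ) × ℝ)) = -(h : (Fin d → ℝ) × ℝ)
        + (τ + |t|) • ∑ i ∈ I, ((x i, 1) : (Fin d → ℝ) × ℝ) := by
      rw [hp]
      push_cast
      congr 2
      exact Finset.sum_attach I (fun i => ((x i, 1) : (Fin d → ℝ) × ℝ))
    have hsum : hmat A₀ A (∑ i ∈ I, ((x i, 1) : (Fin d → ℝ) × ℝ)) = B₀ := by
      rw [map_sum, hB₀]
      refine Finset.sum_congr rfl fun i _ => ?_
      simp [hmat_apply, hB]
    rw [mem_bigCone]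
    refine ⟨?_, ?_⟩
    · have h1 : hmat A₀ A ((p : (Fin d → ℝ) × ℝ) + h) + (0 + Z) = (τ • B₀ + Z) + |t| • B₀ := by
        rw [map_add, hcoe, map_add, map_neg, map_smul, hsum, add_smul]
        abel
      have h2 : |t| • B₀ ∈ rangeCone B₀ := by
        refine (rangeCone B₀).smul_mem (abs_nonneg t) ?_
        intro w
        have := hB₀psd.dotProduct_mulVec_nonneg (B₀ *ᵥ w)
        simpa using this
      have h3 := (rangeCone B₀).add_mem hτ h2
      rw [← h1] at h3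
      exact h3
    · have h1 : ((p : (Fin d → ℝ) × ℝ) + h).2 = (τ + |t|) * I.card := by
        rw [hcoe, add_assoc, add_comm ((τ + |t|) • ∑ i ∈ I, ((x i, 1) : (Fin d → ℝ) × ℝ)),
          ← add_assoc, neg_add_cancel, zero_add, Prod.smul_snd, Prod.snd_sum]
        simp
      have h2 : (1:ℝ) ≤ I.card := by
        exact_mod_cast Finset.card_pos.2 ⟨i₀, hi₀⟩
      have h3 : 0 ≤ ((p : (Fin d → ℝ) × ℝ) + h).2 + (0 + t) := by
        rw [h1]
        have := neg_abs_le t
        nlinarith [abs_nonneg t]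
      exact h3)
  -- the matrix
  set Y : Matrix (Fin r) (Fin r) ℝ := Matrix.of fun a b => g (0, Matrix.single a b 1, 0) with hY
  have hlin : ∀ Z : Matrix (Fin r) (Fin r) ℝ, g (0, Z, 0) = ∑ a, ∑ b, Z a b * Y a b := by
    intro Z
    let L : Matrix (Fin r) (Fin r) ℝ →ₗ[ℝ] ℝ :=
      g.comp ((LinearMap.inr ℝ _ _).comp (LinearMap.inl ℝ _ _))
    have hL : ∀ Z, L Z = g (0, Z, 0) := fun Z => rfl
    rw [← hL Z]
    conv_lhs => rw [Matrix.matrix_eq_sum_single Z]
    rw [map_sum]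
    refine Finset.sum_congr rfl fun a _ => ?_
    rw [map_sum]
    refine Finset.sum_congr rfl fun b _ => ?_
    have : Matrix.single a b (Z a b) = Z a b • Matrix.single a b (1:ℝ) := by
      rw [Matrix.smul_single, smul_eq_mul, mul_one]
    rw [this, map_smul, smul_eq_mul, hL, hY]
    rfl
  have hnn : ∀ Z : Matrix (Fin r) (Fin r) ℝ, (∀ v : Fin r → ℝ, 0 ≤ v ⬝ᵥ (Z *ᵥ v)) →
      0 ≤ g (0, Z, 0) := by
    intro Z hZ
    refine hg2 _ ?_
    rw [mem_bigCone]
    refine ⟨?_, by simp⟩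
    intro w
    simpa using hZ (B₀ *ᵥ w)
  have hYsym : Yᵀ = Y := by
    ext a b
    have h1 : ∀ v : Fin r → ℝ, v ⬝ᵥ ((Matrix.single a b (1:ℝ) - Matrix.single b a 1) *ᵥ v) = 0 := by
      intro v
      rw [Matrix.sub_mulVec, dotProduct_sub, Matrix.single_mulVec, Matrix.single_mulVec]
      have hs : ∀ (i : Fin r) (t : ℝ), v ⬝ᵥ Function.update 0 i t = v i * t := fun i t =>
        dotProduct_single v t i
      rw [hs, hs]
      ring
    have h2 := hnn (Matrix.single a b (1:ℝ) - Matrix.single b a 1) (fun v => (h1 v).ge)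
    have h3 := hnn (-(Matrix.single a b (1:ℝ) - Matrix.single b a 1)) (fun v => by
      rw [Matrix.neg_mulVec, dotProduct_neg, h1, neg_zero])
    have h4 : g (0, Matrix.single a b (1:ℝ) - Matrix.single b a 1, 0)
        = g (0, Matrix.single a b (1:ℝ), 0) - g (0, Matrix.single b a (1:ℝ), 0) := by
      rw [← map_sub]
      simp
    have h5 : g (0, -(Matrix.single a b (1:ℝ) - Matrix.single b a 1), 0)
        = -(g (0, Matrix.single a b (1:ℝ), 0) - g (0, Matrix.single b a (1:ℝ), 0)) := by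
      rw [← map_sub, ← map_neg]
      simp
    rw [h4] at h2
    rw [h5] at h3
    have : g (0, Matrix.single a b (1:ℝ), 0) = g (0, Matrix.single b a (1:ℝ), 0) := by linarith
    rw [Matrix.transpose_apply, hY]
    exact this.symm
  have hYpsd : Y.PosSemidef := by
    refine Matrix.PosSemidef.of_dotProduct_mulVec_nonneg ?_ ?_
    · rwa [Matrix.IsHermitian, Matrix.conjTranspose_eq_transpose_of_trivial]
    · intro v
      have h1 := hnn (Matrix.vecMulVec v v) (by
        intro w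
        have h1 : Matrix.vecMulVec v v *ᵥ w = (v ⬝ᵥ w) • v := by
          ext i
          simp only [Matrix.mulVec, Matrix.vecMulVec_apply, dotProduct, Pi.smul_apply,
            smul_eq_mul, Finset.sum_mul]
          exact Finset.sum_congr rfl fun j _ => by ring
        rw [h1, dotProduct_smul, smul_eq_mul, dotProduct_comm w v]
        exact mul_self_nonneg _)
      rw [hlin] at h1
      have h2 : star v ⬝ᵥ (Y *ᵥ v) = ∑ a, ∑ b, Matrix.vecMulVec v v a b * Y a b := by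
        simp only [dotProduct, Matrix.mulVec, star_trivial, Finset.mul_sum, Matrix.vecMulVec_apply]
        refine Finset.sum_congr rfl fun a _ => Finset.sum_congr rfl fun b _ => ?_
        ring
      rw [h2]
      exact h1
  refine ⟨Y, g (0, 0, 1), hYpsd, ?_, ?_⟩
  · refine hg2 _ ?_
    rw [mem_bigCone]
    refine ⟨?_, by simp⟩
    simp only [Submodule.coe_zero, map_zero, add_zero]
    exact (rangeCone B₀).zero_mem
  · intro i hi
    have h0 : hmat A₀ A (x i, 1) = B i := by simp [hmat_apply, hB]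
    -- the functional at the point
    have h1 : g (⟨(x i, 1), hmem1 i hi⟩, 0, 0) = β - (f ⬝ᵥ x i + f₀) := by
      have := hg1 ⟨(⟨(x i, 1), hmem1 i hi⟩, 0, 0), rfl⟩
      rw [this]
      change F (x i, 1) = _
      rw [hFapp]
      ring
    -- the graph of the homogenised matrix is in the cone and its negative
    have h2 : g (⟨(x i, 1), hmem1 i hi⟩, -B i, -1) = 0 := by
      refine le_antisymm ?_ ?_
      · have := hg2 (-(⟨(x i, 1), hmem1 i hi⟩, -B i, -1)) (by
          rw [mem_bigCone]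
          refine ⟨?_, ?_⟩
          · have : hmat A₀ A (-(x i, 1)) + -(-B i) = 0 := by
              rw [map_neg, h0]; abel
            have hz := (rangeCone B₀).zero_mem
            rw [← this] at hz
            exact hz
          · simp)
        rw [map_neg] at this
        linarith
      · refine hg2 _ ?_
        rw [mem_bigCone]
        refine ⟨?_, by simp⟩
        have : hmat A₀ A (x i, 1) + (-B i) = 0 := by rw [h0]; abel
        have hz := (rangeCone B₀).zero_mem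
        rw [← this] at hz
        exact hz
    have h3 : g (⟨(x i, 1), hmem1 i hi⟩, -B i, -1)
        = g (⟨(x i, 1), hmem1 i hi⟩, 0, 0) - g (0, B i, 0) - g (0, 0, 1) := by
      rw [← map_sub, ← map_sub]
      congr 1
      simp
    have h4 : (Y * B i).trace = g (0, B i, 0) := by
      rw [hlin, Matrix.trace]
      simp only [Matrix.diag_apply, Matrix.mul_apply]
      refine Finset.sum_congr rfl fun a _ => Finset.sum_congr rfl fun b _ => ?_
      have := congrFun (congrFun (hsym i hi) a) b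
      rw [Matrix.transpose_apply] at this
      rw [this]
      ring
    rw [h4]
    linarith

end

end Pool.Agent.Lib.MP_678664_lc_SDP
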