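import Pool.Agent.Lib.MP_678664_lc_SDP.Defs
import Pool.Agent.Lib.MP_678664_lc_SDP.Lift

/-!
A semidefinite formulation of size `r` gives a factorisation of the slack matrix
`(G, S) ↦ k.choose 2 - ε - edgesIn G S` (`G` without `u`-clique, `S` a `k`-set) through positive
semidefinite matrices of size `r + 1`.
-/

set_option autoImplicit false

namespace Pool.Agent.Lib.MP_678664_lc_SDP

open Matrix
open Pool.Agent.Lib.MP_678664_lc_h67 (edgesIn)

theorem posSemidef_block {r : ℕ} (Y : Matrix (Fin r) (Fin r) ℝ) (s : ℝ) (hY : Y.PosSemidef)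
    (hs : 0 ≤ s) : (Matrix.fromBlocks Y 0 0 (Matrix.diagonal fun _ : Unit => s)).PosSemidef := by
  refine Matrix.PosSemidef.of_dotProduct_mulVec_nonneg ?_ ?_
  · rw [Matrix.IsHermitian, Matrix.fromBlocks_conjTranspose, hY.isHermitian.eq]
    simp
  · intro x
    have h1 := hY.dotProduct_mulVec_nonneg (x ∘ Sum.inl)
    have h2 : star x ⬝ᵥ (Matrix.fromBlocks Y 0 0 (Matrix.diagonal fun _ : Unit => s) *ᵥ x)
        = star (x ∘ Sum.inl) ⬝ᵥ (Y *ᵥ (x ∘ Sum.inl)) + s * (x (Sum.inr ())) ^ 2 := by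
      rw [Matrix.fromBlocks_mulVec]
      simp only [dotProduct, Fintype.sum_sum_type, Pi.star_apply, Function.comp_apply,
        Sum.elim_inl, Sum.elim_inr, Matrix.zero_mulVec, add_zero, zero_add,
        Matrix.mulVec_diagonal, star_trivial, Finset.univ_unique, Finset.sum_singleton]
      ring
    rw [h2]
    exact add_nonneg h1 (mul_nonneg hs (sq_nonneg _))

/-- The slack matrix of a semidefinite formulation of size `r` has positive semidefinite rank at
most `r + 1`. -/
theorem SDPFormulation.factor {n k u r : ℕ} {ε : ℝ} (P : SDPFormulation n k u ε r) :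
    ∃ (A : SimpleGraph (Fin n) → Matrix (Fin r ⊕ Unit) (Fin r ⊕ Unit) ℝ)
      (B : Finset (Fin n) → Matrix (Fin r ⊕ Unit) (Fin r ⊕ Unit) ℝ),
      (∀ G, G.CliqueFree u → (A G).PosSemidef) ∧ (∀ S, S.card = k → (B S).PosSemidef) ∧
      ∀ G, G.CliqueFree u → ∀ S, S.card = k →
        (k.choose 2 : ℝ) - ε - edgesIn G S = (A G * B S).trace := by
  classical
  have key : ∀ G : SimpleGraph (Fin n), ∃ (Y : Matrix (Fin r) (Fin r) ℝ) (s : ℝ),
      G.CliqueFree u → (Y.PosSemidef ∧ 0 ≤ s ∧ ∀ S : Finset (Fin n), S.card = k →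
        (k.choose 2 : ℝ) - ε - edgesIn G S
          = (Y * (P.A₀ + ∑ j, P.point S j • P.A j)).trace + s) := by
    intro G
    by_cases hG : G.CliqueFree u
    · by_cases hne : (Finset.univ.filter fun S : Finset (Fin n) => S.card = k).Nonempty
      · obtain ⟨Y, s, hY, hs, h⟩ := psd_factor P.A₀ P.A P.c P.e
          (Finset.univ.filter fun S : Finset (Fin n) => S.card = k) hne P.point
          (fun S hS => P.point_psd S (Finset.mem_filter.1 hS).2)
          (fun S hS => P.point_eq S (Finset.mem_filter.1 hS).2) (P.obj G) (P.obj0 G)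
          ((k.choose 2 : ℝ) - ε) (fun y hy hye => P.sound G hG y hy hye)
        refine ⟨Y, s, fun _ => ⟨hY, hs, fun S hS => ?_⟩⟩
        rw [← h S (Finset.mem_filter.2 ⟨Finset.mem_univ _, hS⟩), P.obj_point G S hS]
      · refine ⟨0, 0, fun _ => ⟨Matrix.PosSemidef.zero, le_rfl, fun S hS => ?_⟩⟩
        exact absurd ⟨S, Finset.mem_filter.2 ⟨Finset.mem_univ _, hS⟩⟩ hne
    · exact ⟨0, 0, fun h => absurd h hG⟩
  choose Y s hYs using key
  refine ⟨fun G => Matrix.fromBlocks (Y G) 0 0 (Matrix.diagonal fun _ => s G),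
    fun S => Matrix.fromBlocks (P.A₀ + ∑ j, P.point S j • P.A j) 0 0 (Matrix.diagonal fun _ => 1),
    fun G hG => posSemidef_block _ _ (hYs G hG).1 (hYs G hG).2.1,
    fun S hS => posSemidef_block _ _ (P.point_psd S hS) zero_le_one, fun G hG S hS => ?_⟩
  rw [(hYs G hG).2.2 S hS, Matrix.fromBlocks_multiply]
  simp [Matrix.trace, Matrix.diag, Fintype.sum_sum_type]

end Pool.Agent.Lib.MP_678664_lc_SDP
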